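import Pool.Agent.Helper66.CW.Defs

/-!
# Chowla for the joint class theorem (MP_a499ba_nt), block B1

Almost all `n` have a pair of primes of large index with an odd exponent sum in `Q(n)`.
-/

set_option autoImplicit false

namespace Pool.Agent.Helper96.CW

open Finset Filter Pool.Agent.Helper66.MB Pool.Agent.Helper66.CW

/-! ### A weak bound for the logarithms of the small primes -/

lemma log_le_four {x : ℝ} (hx : 0 < x) : Real.log x ≤ 4 * √(√x) := by
  have h1 : Real.log x = 4 * Real.log (√(√x)) := by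
    rw [Real.log_sqrt (Real.sqrt_nonneg _), Real.log_sqrt hx.le]; ring
  have h2 := Real.log_le_sub_one_of_pos (x := √(√x)) (by positivity)
  rw [h1]; linarith

lemma root_pow {x : ℝ} (hx : 0 ≤ x) : (√(√x)) ^ 4 = x := by
  have h1 : (√(√x)) ^ 4 = ((√(√x)) ^ 2) ^ 2 := by ring
  rw [h1, Real.sq_sqrt (Real.sqrt_nonneg _), Real.sq_sqrt hx]

lemma root_step (n : ℕ) :
    1 / (√(√((n : ℝ) + 1))) ^ 3 ≤ 4 * (√(√((n : ℝ) + 1)) - √(√(n : ℝ))) := by
  have ha : (√(√((n : ℝ) + 1))) ^ 4 = (n : ℝ) + 1 := root_pow (by positivity)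
  have hb : (√(√(n : ℝ))) ^ 4 = (n : ℝ) := root_pow (by positivity)
  have hle : √(√(n : ℝ)) ≤ √(√((n : ℝ) + 1)) := by
    apply Real.sqrt_le_sqrt
    apply Real.sqrt_le_sqrt
    linarith
  have ha0 : 0 < √(√((n : ℝ) + 1)) := by positivity
  have hb0 : 0 ≤ √(√(n : ℝ)) := by positivity
  set a := √(√((n : ℝ) + 1)) with hadef
  set b := √(√(n : ℝ)) with hbdef
  rw [div_le_iff₀ (by positivity)]
  have h1 : a ^ 4 - b ^ 4 = 1 := by rw [ha, hb]; ring
  have h2 : a ^ 4 - b ^ 4 = (a - b) * (a ^ 3 + a ^ 2 * b + a * b ^ 2 + b ^ 3) := by ring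
  have h3 : a ^ 3 + a ^ 2 * b + a * b ^ 2 + b ^ 3 ≤ 4 * a ^ 3 := by
    have e1 : a ^ 2 * b ≤ a ^ 2 * a := mul_le_mul_of_nonneg_left hle (by positivity)
    have e2 : a * b ^ 2 ≤ a * a ^ 2 := mul_le_mul_of_nonneg_left (pow_le_pow_left₀ hb0 hle 2) ha0.le
    have e3 : b ^ 3 ≤ a ^ 3 := pow_le_pow_left₀ hb0 hle 3
    nlinarith
  have h4 : 0 ≤ a - b := by linarith
  have h5 := mul_le_mul_of_nonneg_left h3 h4
  nlinarith

lemma sum_root (n : ℕ) :
    ∑ j ∈ range n, 1 / (√(√((j : ℝ) + 1))) ^ 3 ≤ 4 * √(√(n : ℝ)) := by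
  induction n with
  | zero => simp
  | succ n ih =>
    rw [sum_range_succ]
    have h := root_step n
    push_cast
    linarith

lemma log_prime_le (j : ℕ) :
    Real.log (Nat.nth Nat.Prime j) / ((Nat.nth Nat.Prime j : ℝ) - 1) ≤
      8 * (1 / (√(√((j : ℝ) + 1))) ^ 3) := by
  have h1 : j + 2 ≤ Nat.nth Nat.Prime j := Nat.add_two_le_nth_prime j
  have h1' : (j : ℝ) + 2 ≤ (Nat.nth Nat.Prime j : ℝ) := by exact_mod_cast h1
  set x : ℝ := (Nat.nth Nat.Prime j : ℝ) with hx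
  have hj : (0 : ℝ) ≤ j := Nat.cast_nonneg j
  have hx0 : 0 < x := by linarith
  have h2 := log_le_four hx0
  have h3 := root_pow hx0.le
  have hc : 0 < √(√x) := by positivity
  have hle : √(√((j : ℝ) + 1)) ≤ √(√x) := by
    apply Real.sqrt_le_sqrt
    apply Real.sqrt_le_sqrt
    linarith
  have ha0 : 0 < √(√((j : ℝ) + 1)) := by positivity
  have h4 : Real.log x / (x - 1) ≤ 8 * (1 / (√(√x)) ^ 3) := by
    rw [div_le_iff₀ (by linarith)]
    have e1 : x - 1 ≥ x / 2 := by linarith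
    have e2 : 8 * (1 / (√(√x)) ^ 3) * (x - 1) ≥ 8 * (1 / (√(√x)) ^ 3) * (x / 2) :=
      mul_le_mul_of_nonneg_left e1 (by positivity)
    have e3 : 8 * (1 / (√(√x)) ^ 3) * (x / 2) = 4 * √(√x) := by
      have e4 : 8 * (1 / (√(√x)) ^ 3) * (x / 2) = 8 * (1 / (√(√x)) ^ 3) * ((√(√x)) ^ 4 / 2) := by
        rw [h3]
      rw [e4]
      field_simp
      ring
    linarith
  refine h4.trans ?_
  apply mul_le_mul_of_nonneg_left _ (by norm_num)
  apply one_div_le_one_div_of_le (by positivity)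
  exact pow_le_pow_left₀ ha0.le hle 3

/-- The primes of the pairs of index less than `I`. -/
noncomputable def PP (I : ℕ) : Finset ℕ := (range (2 * I)).image (Nat.nth Nat.Prime)

lemma mem_PP {I p : ℕ} (hp : p.Prime) (h : p < pa I) : p ∈ PP I := by
  unfold PP
  rw [mem_image]
  refine ⟨Nat.count Nat.Prime p, ?_, Nat.nth_count hp⟩
  rw [mem_range]
  have h1 := Nat.count_strict_mono hp h
  rwa [count_pa] at h1

lemma prime_of_mem_PP {I p : ℕ} (h : p ∈ PP I) : p.Prime := by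
  unfold PP at h
  rw [mem_image] at h
  obtain ⟨j, _, rfl⟩ := h
  exact Nat.prime_nth_prime j

lemma sum_PP (I : ℕ) : ∑ p ∈ PP I, Real.log p / ((p : ℝ) - 1) ≤ 32 * √(√((2 * I : ℕ) : ℝ)) := by
  unfold PP
  rw [sum_image (fun a _ b _ h => Nat.nth_injective Nat.infinite_setOfPred_prime h)]
  calc ∑ j ∈ range (2 * I), Real.log (Nat.nth Nat.Prime j) / ((Nat.nth Nat.Prime j : ℝ) - 1)
      ≤ ∑ j ∈ range (2 * I), 8 * (1 / (√(√((j : ℝ) + 1))) ^ 3) := sum_le_sum fun j _ => log_prime_le j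
    _ = 8 * ∑ j ∈ range (2 * I), 1 / (√(√((j : ℝ) + 1))) ^ 3 := by rw [mul_sum]
    _ ≤ 8 * (4 * √(√((2 * I : ℕ) : ℝ))) := mul_le_mul_of_nonneg_left (sum_root _) (by norm_num)
    _ = _ := by ring

/-! ### Smooth numbers -/

lemma legendre {p : ℕ} (hp : p.Prime) (M : ℕ) :
    ((∑ m ∈ Icc 1 M, m.factorization p : ℕ) : ℝ) ≤ M / ((p : ℝ) - 1) := by
  have h1 : ∑ m ∈ Icc 1 M, m.factorization p = padicValNat p M.factorial := by
    rw [← Nat.factorization_def _ hp]
    induction M with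
    | zero => simp
    | succ M ih =>
      rw [sum_Icc_succ_top (by omega), ih, Nat.factorial_succ,
        Nat.factorization_mul (by omega) (Nat.factorial_ne_zero M)]
      simp [add_comm]
  have : Fact p.Prime := ⟨hp⟩
  have h2 := sub_one_mul_padicValNat_factorial (p := p) M
  have h3 : (p - 1) * padicValNat p M.factorial ≤ M := by rw [h2]; exact Nat.sub_le _ _
  have hp1 : (1 : ℝ) < p := by exact_mod_cast hp.one_lt
  rw [h1, le_div_iff₀ (by linarith)]
  have h4 : (((p - 1) * padicValNat p M.factorial : ℕ) : ℝ) ≤ M := by exact_mod_cast h3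
  rw [Nat.cast_mul, Nat.cast_sub hp.one_lt.le] at h4
  push_cast at h4
  linarith

lemma log_smooth {I m : ℕ} (hs : ∀ p : ℕ, p.Prime → p ∣ m → p < pa I) :
    Real.log m ≤ ∑ p ∈ PP I, (m.factorization p : ℝ) * Real.log p := by
  rw [Real.log_nat_eq_sum_factorization, Finsupp.sum]
  apply sum_le_sum_of_subset_of_nonneg
  · intro p hp
    have h1 : p ∈ m.primeFactors := by simpa using hp
    exact mem_PP (Nat.prime_of_mem_primeFactors h1)
      (hs p (Nat.prime_of_mem_primeFactors h1) (Nat.dvd_of_mem_primeFactors h1))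
  · intro p _ _
    exact mul_nonneg (Nat.cast_nonneg _) (Real.log_natCast_nonneg _)

open Classical in
lemma sum_smooth (I M : ℕ) :
    ∑ m ∈ (Icc 1 M).filter (fun m => ∀ p : ℕ, p.Prime → p ∣ m → p < pa I), Real.log m ≤
      M * (32 * √(√((2 * I : ℕ) : ℝ))) := by
  calc ∑ m ∈ (Icc 1 M).filter (fun m => ∀ p : ℕ, p.Prime → p ∣ m → p < pa I), Real.log m
      ≤ ∑ m ∈ (Icc 1 M).filter (fun m => ∀ p : ℕ, p.Prime → p ∣ m → p < pa I),
          ∑ p ∈ PP I, (m.factorization p : ℝ) * Real.log p :=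
        sum_le_sum fun m hm => log_smooth (mem_filter.1 hm).2
    _ ≤ ∑ m ∈ Icc 1 M, ∑ p ∈ PP I, (m.factorization p : ℝ) * Real.log p := by
        apply sum_le_sum_of_subset_of_nonneg (filter_subset _ _)
        intro m _ _
        exact sum_nonneg fun p _ => mul_nonneg (Nat.cast_nonneg _) (Real.log_natCast_nonneg _)
    _ = ∑ p ∈ PP I, Real.log p * ((∑ m ∈ Icc 1 M, m.factorization p : ℕ) : ℝ) := by
        rw [sum_comm]
        refine sum_congr rfl fun p _ => ?_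
        push_cast
        rw [mul_sum]
        exact sum_congr rfl fun m _ => mul_comm _ _
    _ ≤ ∑ p ∈ PP I, Real.log p * (M / ((p : ℝ) - 1)) := by
        refine sum_le_sum fun p hp => ?_
        exact mul_le_mul_of_nonneg_left (legendre (prime_of_mem_PP hp) M) (Real.log_natCast_nonneg _)
    _ = M * ∑ p ∈ PP I, Real.log p / ((p : ℝ) - 1) := by
        rw [mul_sum]
        refine sum_congr rfl fun p _ => ?_
        ring
    _ ≤ _ := mul_le_mul_of_nonneg_left (sum_PP I) (Nat.cast_nonneg _)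

open Classical in
lemma card_smooth (I N h₀ : ℕ) (hN : 2 ≤ N) :
    (((Icc 1 N).filter (fun n => ∀ p : ℕ, p.Prime → p ∣ n + h₀ → p < pa I)).card : ℝ) ≤
      √(N : ℝ) + 64 * (N + h₀ : ℕ) * √(√((2 * I : ℕ) : ℝ)) / Real.log N := by
  set Z := (Icc 1 N).filter (fun n => ∀ p : ℕ, p.Prime → p ∣ n + h₀ → p < pa I) with hZ
  have hu : 0 < Real.log N := Real.log_pos (by exact_mod_cast (by omega : 1 < N))
  have hN0 : (0 : ℝ) < N := by exact_mod_cast (by omega : 0 < N)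
  -- small elements
  have h1 : ((Z.filter (fun n : ℕ => (n : ℝ) ≤ √(N : ℝ))).card : ℝ) ≤ √(N : ℝ) := by
    have hsub : Z.filter (fun n : ℕ => (n : ℝ) ≤ √(N : ℝ)) ⊆ Icc 1 ⌊√(N : ℝ)⌋₊ := by
      intro n hn
      rw [mem_filter, hZ, mem_filter, mem_Icc] at hn
      rw [mem_Icc]
      exact ⟨hn.1.1.1, Nat.le_floor hn.2⟩
    have h2 := card_le_card hsub
    rw [Nat.card_Icc, Nat.add_sub_cancel] at h2
    exact (Nat.cast_le.2 h2).trans (Nat.floor_le (Real.sqrt_nonneg _))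
  -- large elements
  have h3 : ((Z.filter (fun n : ℕ => ¬ (n : ℝ) ≤ √(N : ℝ))).card : ℝ) * (Real.log N / 2) ≤
      (N + h₀ : ℕ) * (32 * √(√((2 * I : ℕ) : ℝ))) := by
    refine le_trans ?_ (sum_smooth I (N + h₀))
    have e1 : ∑ n ∈ Z.filter (fun n : ℕ => ¬ (n : ℝ) ≤ √(N : ℝ)), Real.log ((n + h₀ : ℕ) : ℝ) ≤
        ∑ m ∈ (Icc 1 (N + h₀)).filter (fun m => ∀ p : ℕ, p.Prime → p ∣ m → p < pa I), Real.log m := by
      rw [← sum_image (s := Z.filter (fun n : ℕ => ¬ (n : ℝ) ≤ √(N : ℝ))) (g := fun n => n + h₀)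
        (f := fun m : ℕ => Real.log (m : ℝ)) (fun a _ b _ h => by simpa using h)]
      apply sum_le_sum_of_subset_of_nonneg
      · intro m hm
        rw [mem_image] at hm
        obtain ⟨n, hn, rfl⟩ := hm
        rw [mem_filter, hZ, mem_filter, mem_Icc] at hn
        rw [mem_filter, mem_Icc]
        exact ⟨⟨by omega, by omega⟩, hn.1.2⟩
      · intro m _ _
        exact Real.log_natCast_nonneg _
    refine le_trans ?_ e1
    rw [← nsmul_eq_mul, ← sum_const]
    refine sum_le_sum fun n hn => ?_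
    have hn' := (mem_filter.1 hn).2
    push Not at hn'
    have e2 : Real.log (√(N : ℝ)) = Real.log N / 2 := Real.log_sqrt hN0.le
    rw [← e2]
    apply Real.log_le_log (by positivity)
    push_cast
    have : (0 : ℝ) ≤ h₀ := Nat.cast_nonneg _
    linarith
  have h4 : (Z.card : ℝ) = ((Z.filter (fun n : ℕ => (n : ℝ) ≤ √(N : ℝ))).card : ℝ) +
      ((Z.filter (fun n : ℕ => ¬ (n : ℝ) ≤ √(N : ℝ))).card : ℝ) := by
    rw [← Nat.cast_add, card_filter_add_card_filter_not]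
  have h5 : ((Z.filter (fun n : ℕ => ¬ (n : ℝ) ≤ √(N : ℝ))).card : ℝ) ≤
      64 * (N + h₀ : ℕ) * √(√((2 * I : ℕ) : ℝ)) / Real.log N := by
    rw [le_div_iff₀ hu]
    linarith
  linarith

/-! ### Squares -/

open Classical in
lemma card_sq (I N h₀ : ℕ) :
    (((Icc 1 N).filter (fun n => ∃ p : ℕ, pa I ≤ p ∧ p ^ 2 ∣ n + h₀)).card : ℝ) ≤
      (N + h₀ : ℕ) * (2 / ((I : ℝ) + 1)) := by
  have hsub : (Icc 1 N).filter (fun n => ∃ p : ℕ, pa I ≤ p ∧ p ^ 2 ∣ n + h₀) ⊆
      (Ioo I (N + h₀ + 1)).biUnion (fun p => (Icc 1 N).filter (fun n => p ^ 2 ∣ n + h₀)) := by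
    intro n hn
    rw [mem_filter, mem_Icc] at hn
    obtain ⟨⟨h1, h2⟩, p, h3, h4⟩ := hn
    rw [mem_biUnion]
    refine ⟨p, ?_, ?_⟩
    · rw [mem_Ioo]
      have h5 := Nat.le_of_dvd (by omega) h4
      have h6 := lt_pa I
      have h7 : p ≤ p ^ 2 := Nat.le_self_pow (by norm_num) p
      constructor <;> omega
    · rw [mem_filter, mem_Icc]
      exact ⟨⟨h1, h2⟩, h4⟩
  have h1 := (card_le_card hsub).trans card_biUnion_le
  have h2 : ((∑ p ∈ Ioo I (N + h₀ + 1), ((Icc 1 N).filter (fun n => p ^ 2 ∣ n + h₀)).card : ℕ) : ℝ) ≤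
      ∑ p ∈ Ioo I (N + h₀ + 1), (N + h₀ : ℕ) * (((p : ℝ) ^ 2)⁻¹) := by
    rw [Nat.cast_sum]
    refine sum_le_sum fun p hp => ?_
    have e1 : ((Icc 1 N).filter (fun n => p ^ 2 ∣ n + h₀)).card ≤ (N + h₀) / p ^ 2 := by
      rw [← Nat.Ioc_filter_dvd_card_eq_div]
      apply card_le_card_of_injOn (fun n => n + h₀)
      · intro n hn
        rw [mem_coe, mem_filter, mem_Icc] at hn
        have hm : n + h₀ ∈ (Ioc 0 (N + h₀)).filter (fun x => p ^ 2 ∣ x) := by
          rw [mem_filter, mem_Ioc]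
          exact ⟨⟨by omega, by omega⟩, hn.2⟩
        exact mem_coe.2 hm
      · intro a _ b _ h
        simpa using h
    calc (((Icc 1 N).filter (fun n => p ^ 2 ∣ n + h₀)).card : ℝ) ≤ (((N + h₀) / p ^ 2 : ℕ) : ℝ) := by
          exact_mod_cast e1
      _ ≤ ((N + h₀ : ℕ) : ℝ) / ((p ^ 2 : ℕ) : ℝ) := Nat.cast_div_le
      _ = _ := by push_cast; rw [div_eq_mul_inv]
  have h3 : ∑ p ∈ Ioo I (N + h₀ + 1), ((N + h₀ : ℕ) : ℝ) * (((p : ℝ) ^ 2)⁻¹) ≤
      (N + h₀ : ℕ) * (2 / ((I : ℝ) + 1)) := by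
    rw [← mul_sum]
    exact mul_le_mul_of_nonneg_left (sum_Ioo_inv_sq_le _ _) (Nat.cast_nonneg _)
  exact ((Nat.cast_le.2 h1).trans h2).trans h3

/-! ### Pairs -/

lemma card_class {d N : ℕ} (_hd : 0 < d) (s : Finset ℕ) (hs : s ⊆ Icc 1 N)
    (hc : ∀ a ∈ s, ∀ b ∈ s, a ≡ b [MOD d]) : (s.card : ℝ) ≤ (N : ℝ) / d + 1 := by
  have h1 : s.card ≤ (range (N / d + 1)).card := by
    apply card_le_card_of_injOn (fun n => (n - 1) / d)
    · intro n hn
      have := mem_Icc.1 (hs hn)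
      rw [mem_coe, mem_range, Nat.lt_succ_iff]
      exact Nat.div_le_div_right (by omega)
    · intro a ha b hb hab
      have ha' := mem_Icc.1 (hs ha)
      have hb' := mem_Icc.1 (hs hb)
      have h2 : a ≡ b [MOD d] := hc a ha b hb
      have h3 : (a - 1) % d = (b - 1) % d := by
        have h4 : (a - 1) + 1 ≡ (b - 1) + 1 [MOD d] := by
          rw [Nat.sub_add_cancel ha'.1, Nat.sub_add_cancel hb'.1]; exact h2
        exact Nat.ModEq.add_right_cancel' 1 h4
      have h5 : (a - 1) / d = (b - 1) / d := hab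
      have h6 := Nat.div_add_mod (a - 1) d
      have h7 := Nat.div_add_mod (b - 1) d
      rw [h5, h3] at h6
      omega
  rw [card_range] at h1
  have h2 : (s.card : ℝ) ≤ ((N / d + 1 : ℕ) : ℝ) := by exact_mod_cast h1
  push_cast at h2
  have h3 : ((N / d : ℕ) : ℝ) ≤ (N : ℝ) / d := Nat.cast_div_le
  linarith

open Classical in
lemma card_two (i N a b : ℕ) :
    (((Icc 1 N).filter (fun n => pa i ∣ n + a ∧ pb i ∣ n + b)).card : ℝ) ≤
      (N : ℝ) * (((i + 1 : ℕ) : ℝ) ^ 2)⁻¹ + 1 := by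
  have hpa := pa_prime i
  have hpb := pb_prime i
  have hne : pa i ≠ pb i := (pa_lt_pb i).ne
  have hcop : Nat.Coprime (pa i) (pb i) := (Nat.coprime_primes hpa hpb).2 hne
  have h1 := card_class (N := N) (Nat.mul_pos hpa.pos hpb.pos)
    ((Icc 1 N).filter (fun n => pa i ∣ n + a ∧ pb i ∣ n + b)) (filter_subset _ _) (by
      intro x hx y hy
      rw [mem_filter] at hx hy
      rw [← Nat.modEq_and_modEq_iff_modEq_mul hcop]
      constructor
      · have e : x + a ≡ y + a [MOD pa i] :=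
          ((Nat.modEq_zero_iff_dvd).2 hx.2.1).trans ((Nat.modEq_zero_iff_dvd).2 hy.2.1).symm
        exact Nat.ModEq.add_right_cancel' a e
      · have e : x + b ≡ y + b [MOD pb i] :=
          ((Nat.modEq_zero_iff_dvd).2 hx.2.2).trans ((Nat.modEq_zero_iff_dvd).2 hy.2.2).symm
        exact Nat.ModEq.add_right_cancel' b e)
  refine h1.trans ?_
  have h2 : ((i + 1 : ℕ) : ℝ) ^ 2 ≤ ((pa i * pb i : ℕ) : ℝ) := by
    have e1 := lt_pa i
    have e2 := pa_lt_pb i
    have e3 : (i + 1) ^ 2 ≤ pa i * pb i := by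
      rw [pow_two]
      exact Nat.mul_le_mul (by omega) (by omega)
    exact_mod_cast e3
  have h3 : (N : ℝ) / ((pa i * pb i : ℕ) : ℝ) ≤ (N : ℝ) * (((i + 1 : ℕ) : ℝ) ^ 2)⁻¹ := by
    rw [div_eq_mul_inv]
    apply mul_le_mul_of_nonneg_left _ (Nat.cast_nonneg _)
    exact inv_anti₀ (by positivity) h2
  linarith

open Classical in
lemma card_pairs {k : ℕ} (h : Fin k → ℕ) (I N : ℕ) :
    (((Icc 1 N).filter (fun n => ∃ i, I ≤ i ∧ ∃ a b, pa i ∣ n + h a ∧ pb i ∣ n + h b)).card : ℝ) ≤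
      k ^ 2 * ((Nat.primeCounting (N + ∑ j, h j) : ℝ) + N * (2 / ((I : ℝ) + 1))) := by
  set M := N + ∑ j, h j with hM
  set S := (range (M + 1)).filter (fun i => I ≤ i ∧ pb i ≤ M) with hS
  have hsub : (Icc 1 N).filter (fun n => ∃ i, I ≤ i ∧ ∃ a b, pa i ∣ n + h a ∧ pb i ∣ n + h b) ⊆
      (univ : Finset (Fin k × Fin k)).biUnion (fun c => S.biUnion (fun i =>
        (Icc 1 N).filter (fun n => pa i ∣ n + h c.1 ∧ pb i ∣ n + h c.2))) := by
    intro n hn
    rw [mem_filter, mem_Icc] at hn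
    obtain ⟨⟨h1, h2⟩, i, h3, a, b, h4, h5⟩ := hn
    rw [mem_biUnion]
    refine ⟨(a, b), mem_univ _, ?_⟩
    rw [mem_biUnion]
    refine ⟨i, ?_, ?_⟩
    · have e1 : pb i ≤ n + h b := Nat.le_of_dvd (by omega) h5
      have e2 : h b ≤ ∑ j, h j := single_le_sum (f := h) (fun _ _ => Nat.zero_le _) (mem_univ b)
      have e3 := lt_pa i
      have e4 := pa_lt_pb i
      rw [hS, mem_filter, mem_range]
      refine ⟨by omega, h3, by omega⟩
    · rw [mem_filter, mem_Icc]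
      exact ⟨⟨h1, h2⟩, h4, h5⟩
  have hcS : (S.card : ℝ) ≤ Nat.primeCounting M := by
    have e1 : S.card ≤ ((range (M + 1)).filter Nat.Prime).card := by
      apply card_le_card_of_injOn pb
      · intro i hi
        rw [mem_coe, hS, mem_filter] at hi
        rw [mem_coe, mem_filter, mem_range]
        exact ⟨by omega, pb_prime i⟩
      · intro a _ b _ hab
        exact pb_strictMono.injective hab
    have e2 : ((range (M + 1)).filter Nat.Prime).card = Nat.primeCounting M := by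
      rw [← Nat.count_eq_card_filter_range]; rfl
    rw [e2] at e1
    exact_mod_cast e1
  have hsS : ∑ i ∈ S, (((i + 1 : ℕ) : ℝ) ^ 2)⁻¹ ≤ 2 / ((I : ℝ) + 1) := by
    rw [← sum_image (s := S) (g := fun i => i + 1) (f := fun m : ℕ => (((m : ℕ) : ℝ) ^ 2)⁻¹)
      (fun a _ b _ h => by simpa using h)]
    refine le_trans ?_ (sum_Ioo_inv_sq_le I (M + 2))
    apply sum_le_sum_of_subset_of_nonneg
    · intro m hm
      rw [mem_image] at hm
      obtain ⟨i, hi, rfl⟩ := hm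
      rw [hS, mem_filter, mem_range] at hi
      rw [mem_Ioo]
      constructor <;> omega
    · intro m _ _
      positivity
  have h1 : ((((Icc 1 N).filter
      (fun n => ∃ i, I ≤ i ∧ ∃ a b, pa i ∣ n + h a ∧ pb i ∣ n + h b)).card : ℕ) : ℝ) ≤
      ∑ c : Fin k × Fin k, ∑ i ∈ S, ((N : ℝ) * (((i + 1 : ℕ) : ℝ) ^ 2)⁻¹ + 1) := by
    have e1 := (card_le_card hsub).trans card_biUnion_le
    refine (Nat.cast_le.2 e1).trans ?_
    rw [Nat.cast_sum]
    refine sum_le_sum fun c _ => ?_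
    refine (Nat.cast_le.2 card_biUnion_le).trans ?_
    rw [Nat.cast_sum]
    exact sum_le_sum fun i _ => card_two i N _ _
  refine h1.trans ?_
  rw [sum_const, card_univ, Fintype.card_prod, Fintype.card_fin, nsmul_eq_mul, sum_add_distrib,
    ← mul_sum, sum_const, nsmul_eq_mul, mul_one]
  have h2 : (N : ℝ) * ∑ i ∈ S, (((i + 1 : ℕ) : ℝ) ^ 2)⁻¹ ≤ N * (2 / ((I : ℝ) + 1)) :=
    mul_le_mul_of_nonneg_left hsS (Nat.cast_nonneg _)
  have h3 : ((k * k : ℕ) : ℝ) = (k : ℝ) ^ 2 := by push_cast; ring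
  rw [h3]
  apply mul_le_mul_of_nonneg_left _ (by positivity)
  linarith

/-! ### The exceptional set -/

lemma mem_cases {k : ℕ} (a₀ : Fin k) (h : Fin k → ℕ) (hinj : Function.Injective h) (n I : ℕ) (hn : 1 ≤ n)
    (hI : ∑ j, h j ≤ I) (hz : ∀ i, I ≤ i → ¬ odd2 i (Q h n)) :
    (∀ p : ℕ, p.Prime → p ∣ n + h a₀ → p < pa I) ∨ (∃ p : ℕ, pa I ≤ p ∧ p ^ 2 ∣ n + h a₀) ∨
      (∃ i, I ≤ i ∧ ∃ a b, pa i ∣ n + h a ∧ pb i ∣ n + h b) := by
  by_contra hcon
  push Not at hcon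
  obtain ⟨⟨p, hp, hdvd, hge⟩, h2, h3⟩ := hcon
  have hQ : Q h n = ∏ i, (n + h i) := rfl
  have hfac : ∀ q : ℕ, (Q h n).factorization q = ∑ a, (n + h a).factorization q := by
    intro q
    rw [hQ, Nat.factorization_prod (fun a _ => by omega)]
    simp
  -- a large prime divides only one factor
  have hone : ∀ a, a ≠ a₀ → (n + h a).factorization p = 0 := by
    intro a ha
    apply Nat.factorization_eq_zero_of_not_dvd
    intro hd
    have hne : h a ≠ h a₀ := fun e => ha (hinj e)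
    have e1 : h a ≤ ∑ j, h j := single_le_sum (f := h) (fun _ _ => Nat.zero_le _) (mem_univ a)
    have e2 : h a₀ ≤ ∑ j, h j := single_le_sum (f := h) (fun _ _ => Nat.zero_le _) (mem_univ a₀)
    have e3 := lt_pa I
    rcases lt_or_gt_of_ne hne with hl | hl
    · have e4 : p ∣ (n + h a₀) - (n + h a) := Nat.dvd_sub hdvd hd
      have e5 := Nat.le_of_dvd (by omega) e4
      omega
    · have e4 : p ∣ (n + h a) - (n + h a₀) := Nat.dvd_sub hd hdvd
      have e5 := Nat.le_of_dvd (by omega) e4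
      omega
  have hv : (Q h n).factorization p = (n + h a₀).factorization p := by
    rw [hfac p]
    exact Finset.sum_eq_single a₀ (fun a _ ha => hone a ha) (fun hh => absurd (mem_univ _) hh)
  have hpos : 1 ≤ (n + h a₀).factorization p :=
    (hp.dvd_iff_one_le_factorization (by omega)).1 hdvd
  have hsq : ¬ 2 ≤ (n + h a₀).factorization p := by
    intro e
    exact h2 p hge ((hp.pow_dvd_iff_le_factorization (by omega)).2 e)
  have hv1 : (Q h n).factorization p = 1 := by omega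
  -- the other prime of the pair
  have hother : ∀ q : ℕ, (Q h n).factorization q ≠ 0 → ∃ b, q ∣ n + h b := by
    intro q hq
    have e1 : q ∣ Q h n := Nat.dvd_of_factorization_pos hq
    by_cases hqp : q.Prime
    · rw [hQ, hqp.prime.dvd_finsetProd_iff] at e1
      obtain ⟨b, _, hb⟩ := e1
      exact ⟨b, hb⟩
    · exact absurd (Nat.factorization_eq_zero_of_not_prime _ hqp) hq
  obtain ⟨i, hi⟩ := prime_cases hp
  have hIi : I ≤ i := by
    by_contra hlt
    push Not at hlt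
    have e1 := pb_lt_pa hlt
    have e2 := pa_lt_pb i
    rcases hi with hi | hi <;> omega
  have hev := hz i hIi
  unfold odd2 at hev
  rw [Nat.not_odd_iff_even] at hev
  rcases hi with hi | hi
  · rw [← hi, hv1] at hev
    have e1 : (Q h n).factorization (pb i) ≠ 0 := by
      intro e; rw [e] at hev; exact absurd hev (by decide)
    obtain ⟨b, hb⟩ := hother _ e1
    exact h3 i hIi a₀ b (hi ▸ hdvd) hb
  · rw [← hi, hv1] at hev
    have e1 : (Q h n).factorization (pa i) ≠ 0 := by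
      intro e; rw [e] at hev; exact absurd hev (by decide)
    obtain ⟨b, hb⟩ := hother _ e1
    exact h3 i hIi b a₀ hb (hi ▸ hdvd)

open Classical in
lemma card_z {k : ℕ} (a₀ : Fin k) (h : Fin k → ℕ) (hinj : Function.Injective h) (N I : ℕ) (hN : 2 ≤ N)
    (hI : ∑ j, h j ≤ I) :
    (((Icc 1 N).filter (fun n => ∀ i, I ≤ i → ¬ odd2 i (Q h n))).card : ℝ) ≤
      (√(N : ℝ) + 64 * (N + h a₀ : ℕ) * √(√((2 * I : ℕ) : ℝ)) / Real.log N) +
      (N + h a₀ : ℕ) * (2 / ((I : ℝ) + 1)) +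
      k ^ 2 * ((Nat.primeCounting (N + ∑ j, h j) : ℝ) + N * (2 / ((I : ℝ) + 1))) := by
  have hsub : (Icc 1 N).filter (fun n => ∀ i, I ≤ i → ¬ odd2 i (Q h n)) ⊆
      ((Icc 1 N).filter (fun n => ∀ p : ℕ, p.Prime → p ∣ n + h a₀ → p < pa I) ∪
        (Icc 1 N).filter (fun n => ∃ p : ℕ, pa I ≤ p ∧ p ^ 2 ∣ n + h a₀)) ∪
        (Icc 1 N).filter (fun n => ∃ i, I ≤ i ∧ ∃ a b, pa i ∣ n + h a ∧ pb i ∣ n + h b) := by
    intro n hn
    rw [mem_filter] at hn
    rcases mem_cases a₀ h hinj n I (mem_Icc.1 hn.1).1 hI hn.2 with e | e | e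
    · exact mem_union_left _ (mem_union_left _ (mem_filter.2 ⟨hn.1, e⟩))
    · exact mem_union_left _ (mem_union_right _ (mem_filter.2 ⟨hn.1, e⟩))
    · exact mem_union_right _ (mem_filter.2 ⟨hn.1, e⟩)
  have h1 := (card_le_card hsub).trans ((card_union_le _ _).trans (Nat.add_le_add_right (card_union_le _ _) _))
  have h2 := card_smooth I N (h a₀) hN
  have h3 := card_sq I N (h a₀)
  have h4 := card_pairs h I N
  have h5 := (Nat.cast_le (α := ℝ)).2 h1
  rw [Nat.cast_add, Nat.cast_add] at h5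
  linarith

lemma pi_bound (N H : ℕ) (hN : 3 ≤ N) (hH : H ≤ N) (hu : 1 ≤ Real.log N) :
    (Nat.primeCounting (N + H) : ℝ) ≤ N * (8 / √(Real.log N)) := by
  have hN0 : (0 : ℝ) < N := by exact_mod_cast (by omega : 0 < N)
  have hu0 : 0 < Real.log N := by linarith
  have hx : (1 : ℝ) < ((N + H : ℕ) : ℝ) := by exact_mod_cast (by omega : 1 < N + H)
  have h1 := Chebyshev.pi_le_log4_mul_div hx
  rw [Nat.floor_natCast] at h1
  have hx2 : ((N + H : ℕ) : ℝ) ≤ 2 * N := by exact_mod_cast (by omega : N + H ≤ 2 * N)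
  have hxN : (N : ℝ) ≤ ((N + H : ℕ) : ℝ) := by exact_mod_cast (by omega : N ≤ N + H)
  have h2 : Real.log N / 2 ≤ Real.log (√((N + H : ℕ) : ℝ)) := by
    rw [Real.log_sqrt (by positivity)]
    have := Real.log_le_log hN0 hxN
    linarith
  have hl4 : Real.log 4 ≤ 1.4 := by
    have e1 : Real.log 4 = 2 * Real.log 2 := by
      rw [show (4 : ℝ) = 2 ^ 2 by norm_num, Real.log_pow]; norm_num
    have e2 := Real.log_two_lt_d9
    rw [e1]; linarith
  have hl40 : 0 ≤ Real.log 4 := Real.log_nonneg (by norm_num)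
  have h3 : Real.log 4 * ((N + H : ℕ) : ℝ) / Real.log (√((N + H : ℕ) : ℝ)) ≤
      (1.4 * (2 * N)) / (Real.log N / 2) := by
    apply div_le_div₀ (by positivity) _ (by positivity) h2
    exact mul_le_mul hl4 hx2 (by positivity) (by norm_num)
  have hsu : 1 ≤ √(Real.log N) := by
    rw [Real.one_le_sqrt]; exact hu
  have hsq : √(Real.log N) * √(Real.log N) = Real.log N := Real.mul_self_sqrt hu0.le
  have h4 : (1.4 * (2 * (N : ℝ))) / (Real.log N / 2) ≤ N * (6 / √(Real.log N)) := by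
    rw [div_le_iff₀ (by positivity)]
    have e1 : (N : ℝ) * (6 / √(Real.log N)) * (Real.log N / 2) = 3 * N * √(Real.log N) := by
      nth_rewrite 2 [← hsq]
      field_simp
      ring
    rw [e1]
    nlinarith
  have h5 : √((N + H : ℕ) : ℝ) ≤ N * (2 / √(Real.log N)) := by
    have e1 : Real.log N ≤ N := (Real.log_le_sub_one_of_pos hN0).trans (by linarith)
    have e2 : √(Real.log N) ≤ √(N : ℝ) := Real.sqrt_le_sqrt e1
    have e3 : √((N + H : ℕ) : ℝ) ≤ 2 * √(N : ℝ) := by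
      rw [show 2 * √(N : ℝ) = √(4 * N : ℝ) by
        rw [Real.sqrt_mul (by norm_num), show (4 : ℝ) = 2 ^ 2 by norm_num, Real.sqrt_sq (by norm_num)]]
      exact Real.sqrt_le_sqrt (by linarith)
    refine e3.trans ?_
    rw [mul_div_assoc', le_div_iff₀ (by positivity)]
    have e4 : √(N : ℝ) * √(N : ℝ) = N := Real.mul_self_sqrt hN0.le
    nlinarith [Real.sqrt_nonneg (N : ℝ), Real.sqrt_nonneg (Real.log N)]
  have h6 : (N : ℝ) * (8 / √(Real.log N)) = N * (6 / √(Real.log N)) + N * (2 / √(Real.log N)) := by ring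
  rw [h6]
  linarith

open Classical in
/-- Block B1. -/
theorem zset {k : ℕ} (hk : 1 ≤ k) (h : Fin k → ℕ) (hinj : Function.Injective h) (ε : ℝ) (hε : 0 < ε) :
    ∃ N₀ : ℕ, ∀ N I : ℕ, N₀ ≤ N → Real.log N ^ 2 ≤ I → (I : ℝ) ≤ Real.log N ^ 2 + 1 →
      (((Icc 1 N).filter (fun n => ∀ i, I ≤ i → ¬ odd2 i (Q h n))).card : ℝ) ≤ ε * N := by
  set H := ∑ j, h j with hH
  set C : ℝ := 300 + 12 * k ^ 2 with hC
  have hlog : Tendsto (fun N : ℕ => Real.log (N : ℝ)) atTop atTop :=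
    Real.tendsto_log_atTop.comp tendsto_natCast_atTop_atTop
  obtain ⟨N₁, hN₁⟩ := eventually_atTop.1 (hlog.eventually_ge_atTop (max 1 (max H ((C / ε) ^ 2))))
  refine ⟨max 3 (max H N₁), fun N I hN hI1 hI2 => ?_⟩
  have hN3 : 3 ≤ N := (le_max_left _ _).trans hN
  have hNH : H ≤ N := ((le_max_left _ _).trans (le_max_right _ _)).trans hN
  have hu := hN₁ N (((le_max_right _ _).trans (le_max_right _ _)).trans hN)
  have hu1 : 1 ≤ Real.log N := (le_max_left _ _).trans hu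
  have huH : (H : ℝ) ≤ Real.log N := ((le_max_left _ _).trans (le_max_right _ _)).trans hu
  have huC : (C / ε) ^ 2 ≤ Real.log N := ((le_max_right _ _).trans (le_max_right _ _)).trans hu
  have hN0 : (0 : ℝ) < N := by exact_mod_cast (by omega : 0 < N)
  set u := Real.log N with hudef
  have hu0 : 0 < u := by linarith
  have hsu : 1 ≤ √u := by rw [Real.one_le_sqrt]; exact hu1
  have hsu0 : 0 < √u := by linarith
  have hsq : √u * √u = u := Real.mul_self_sqrt hu0.le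
  have hC0 : 0 < C := by positivity
  have huu : u ≤ u ^ 2 := by nlinarith
  have hHI : H ≤ I := by
    have : (H : ℝ) ≤ I := by linarith
    exact_mod_cast this
  have h1 := card_z ⟨0, hk⟩ h hinj N I (by omega) hHI
  have ha0 : h ⟨0, hk⟩ ≤ H := single_le_sum (f := h) (fun _ _ => Nat.zero_le _) (mem_univ _)
  have hM : ((N + h ⟨0, hk⟩ : ℕ) : ℝ) ≤ 2 * N := by exact_mod_cast (by omega : N + h ⟨0, hk⟩ ≤ 2 * N)
  have hinv : 2 / ((I : ℝ) + 1) ≤ 2 / √u := by
    apply div_le_div_of_nonneg_left (by norm_num) hsu0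
    nlinarith
  have hroot : √(√((2 * I : ℕ) : ℝ)) ≤ 2 * √u := by
    have e1 : ((2 * I : ℕ) : ℝ) ≤ (2 * u) ^ 2 := by
      push_cast
      nlinarith
    have e2 : √((2 * I : ℕ) : ℝ) ≤ 2 * u := by
      rw [← Real.sqrt_sq (by positivity : (0 : ℝ) ≤ 2 * u)]
      exact Real.sqrt_le_sqrt e1
    have e3 : 2 * u ≤ (2 * √u) ^ 2 := by nlinarith
    calc √(√((2 * I : ℕ) : ℝ)) ≤ √((2 * √u) ^ 2) := Real.sqrt_le_sqrt (e2.trans e3)
      _ = 2 * √u := Real.sqrt_sq (by positivity)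
  have t1 : √(N : ℝ) ≤ N * (1 / √u) := by
    have e1 : u ≤ N := (Real.log_le_sub_one_of_pos hN0).trans (by linarith)
    have e2 : √u ≤ √(N : ℝ) := Real.sqrt_le_sqrt e1
    rw [mul_one_div, le_div_iff₀ hsu0]
    have e4 : √(N : ℝ) * √(N : ℝ) = N := Real.mul_self_sqrt hN0.le
    nlinarith [Real.sqrt_nonneg (N : ℝ)]
  have t2 : 64 * ((N + h ⟨0, hk⟩ : ℕ) : ℝ) * √(√((2 * I : ℕ) : ℝ)) / u ≤ N * (256 / √u) := by
    rw [div_le_iff₀ hu0]
    have e1 : (N : ℝ) * (256 / √u) * u = 64 * (2 * N) * (2 * √u) := by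
      nth_rewrite 2 [← hsq]
      field_simp
      ring
    rw [e1]
    apply mul_le_mul _ hroot (by positivity) (by positivity)
    exact mul_le_mul_of_nonneg_left hM (by norm_num)
  have t3 : ((N + h ⟨0, hk⟩ : ℕ) : ℝ) * (2 / ((I : ℝ) + 1)) ≤ N * (4 / √u) := by
    have e1 : (N : ℝ) * (4 / √u) = 2 * N * (2 / √u) := by ring
    rw [e1]
    exact mul_le_mul hM hinv (by positivity) (by positivity)
  have t4 := pi_bound N H hN3 hNH hu1
  have t5 : (N : ℝ) * (2 / ((I : ℝ) + 1)) ≤ N * (2 / √u) := mul_le_mul_of_nonneg_left hinv hN0.le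
  have t6 : (k : ℝ) ^ 2 * ((Nat.primeCounting (N + H) : ℝ) + N * (2 / ((I : ℝ) + 1))) ≤
      k ^ 2 * (N * (8 / √u) + N * (2 / √u)) :=
    mul_le_mul_of_nonneg_left (add_le_add t4 t5) (by positivity)
  have h2 : (N : ℝ) * (C / √u) ≤ ε * N := by
    have e1 : C / ε ≤ √u := by
      rw [← Real.sqrt_sq (by positivity : (0 : ℝ) ≤ C / ε)]
      exact Real.sqrt_le_sqrt huC
    have e2 : C / √u ≤ ε := by
      rw [div_le_iff₀ hsu0]
      rw [div_le_iff₀ hε] at e1
      linarith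
    calc (N : ℝ) * (C / √u) ≤ N * ε := mul_le_mul_of_nonneg_left e2 hN0.le
      _ = ε * N := mul_comm _ _
  refine le_trans ?_ h2
  refine h1.trans ?_
  have e3 : (N : ℝ) * (C / √u) = N * (1 / √u) + N * (256 / √u) + N * (4 / √u) +
      k ^ 2 * (N * (8 / √u) + N * (2 / √u)) + N * ((39 + 2 * k ^ 2) / √u) := by
    rw [hC]
    field_simp
    ring
  have e4 : 0 ≤ (N : ℝ) * ((39 + 2 * k ^ 2) / √u) := by positivity
  rw [e3]
  linarith

end Pool.Agent.Helper96.CW
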